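import Pool.Agent.Helper74.CO.Goals2

/-!
# Project CO (MP_c5396e_co), stage 2: packet BUMP4
-/

set_option autoImplicit false

namespace Pool.Agent.Helper77.CO

open Finset Pool.Agent.Helper74.CO

/-- pairwise equidistribution of two discretised coordinates -/
structure Eqd {ι : Type} (G : ℕ) (e : ℝ) (X : Finset ι) (A B : ι → ℕ) : Prop where
  hA : ∀ x ∈ X, A x < G
  hB : ∀ x ∈ X, B x < G
  cell : ∀ i < G, ∀ j < G, |(#(X.filter (fun x => A x = i ∧ B x = j)) : ℝ) - #X / (G : ℝ) ^ 2|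
    ≤ e * #X

theorem Eqd.symm {ι : Type} {G : ℕ} {e : ℝ} {X : Finset ι} {A B : ι → ℕ}
    (h : Eqd G e X A B) : Eqd G e X B A :=
  ⟨h.hB, h.hA, fun i hi j hj => by
    have e1 : X.filter (fun x => B x = i ∧ A x = j) = X.filter (fun x => A x = j ∧ B x = i) :=
      filter_congr (fun x _ => and_comm)
    rw [e1]; exact h.cell j hj i hi⟩

theorem Eqd.refl1 {ι : Type} {G : ℕ} {e : ℝ} {X : Finset ι} {A B : ι → ℕ}
    (h : Eqd G e X A B) : Eqd G e X (fun x => G - 1 - A x) B :=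
  ⟨fun x hx => by have := h.hA x hx; omega, h.hB, fun i hi j hj => by
    have e1 : X.filter (fun x => G - 1 - A x = i ∧ B x = j) =
        X.filter (fun x => A x = G - 1 - i ∧ B x = j) := by
      refine filter_congr (fun x hx => ?_)
      have := h.hA x hx
      constructor <;> rintro ⟨h1, h2⟩ <;> exact ⟨by omega, h2⟩
    rw [e1]; exact h.cell (G - 1 - i) (by omega) j hj⟩

theorem Eqd.refl2 {ι : Type} {G : ℕ} {e : ℝ} {X : Finset ι} {A B : ι → ℕ}
    (h : Eqd G e X A B) : Eqd G e X A (fun x => G - 1 - B x) := h.symm.refl1.symm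

theorem Eqd.avg {ι : Type} {G : ℕ} {e : ℝ} {X : Finset ι} {A B : ι → ℕ}
    (h : Eqd G e X A B) (F : ℕ → ℕ → ℝ) (M : ℝ) (hF : ∀ i < G, ∀ j < G, |F i j| ≤ M) :
    |∑ x ∈ X, F (A x) (B x) - #X / (G : ℝ) ^ 2 * ∑ i ∈ range G, ∑ j ∈ range G, F i j|
      ≤ M * ((G : ℝ) ^ 2 * e) * #X := by
  classical
  have h1 : ∑ x ∈ X, F (A x) (B x) = ∑ p ∈ range G ×ˢ range G,
      (#(X.filter (fun x => A x = p.1 ∧ B x = p.2)) : ℝ) * F p.1 p.2 := by
    rw [← sum_fiberwise_of_maps_to (s := X) (t := range G ×ˢ range G)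
      (g := fun x => (A x, B x)) (fun x hx => by
        simp only [mem_product, mem_range]
        exact ⟨h.hA x hx, h.hB x hx⟩) (fun x => F (A x) (B x))]
    refine sum_congr rfl (fun p _ => ?_)
    have e2 : X.filter (fun x => (A x, B x) = p) = X.filter (fun x => A x = p.1 ∧ B x = p.2) :=
      filter_congr (fun x _ => by rw [Prod.ext_iff])
    rw [e2]
    have e3 : ∑ x ∈ X.filter (fun x => A x = p.1 ∧ B x = p.2), F (A x) (B x) =
        ∑ x ∈ X.filter (fun x => A x = p.1 ∧ B x = p.2), F p.1 p.2 :=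
      sum_congr rfl (fun x hx => by rw [(mem_filter.1 hx).2.1, (mem_filter.1 hx).2.2])
    rw [e3, sum_const, nsmul_eq_mul]
  have h2 : ∑ i ∈ range G, ∑ j ∈ range G, F i j = ∑ p ∈ range G ×ˢ range G, F p.1 p.2 :=
    (sum_product' (range G) (range G) F).symm
  rw [h1, h2, mul_sum, ← sum_sub_distrib]
  refine (abs_sum_le_sum_abs _ _).trans ?_
  have h3 : ∀ p ∈ range G ×ˢ range G,
      |(#(X.filter (fun x => A x = p.1 ∧ B x = p.2)) : ℝ) * F p.1 p.2 -
        #X / (G : ℝ) ^ 2 * F p.1 p.2| ≤ (e * #X) * M := by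
    intro p hp
    rw [mem_product, mem_range, mem_range] at hp
    rw [← sub_mul, abs_mul]
    have hc := h.cell p.1 hp.1 p.2 hp.2
    exact mul_le_mul hc (hF _ hp.1 _ hp.2) (abs_nonneg _) ((abs_nonneg _).trans hc)
  refine (sum_le_sum h3).trans ?_
  rw [sum_const, nsmul_eq_mul, card_product, card_range]
  push_cast
  nlinarith

/-! ### Counting pairs -/

theorem cnt_inner (G n i : ℕ) :
    ∑ j ∈ range G, (if i + j < n then (1 : ℝ) else 0) ≤ ((n - i : ℕ) : ℝ) := by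
  rw [← sum_filter, sum_const, nsmul_eq_mul, mul_one]
  have h : #((range G).filter (fun j => i + j < n)) ≤ #(range (n - i)) :=
    card_le_card (fun j hj => by
      rw [mem_filter] at hj
      rw [mem_range]
      omega)
  rw [card_range] at h
  exact_mod_cast h

theorem tri (G n : ℕ) : ∑ i ∈ range G, ((n - i : ℕ) : ℝ) ≤ (n : ℝ) * (n + 1) / 2 := by
  induction n with
  | zero => simp
  | succ n ih =>
    have h1 : ∑ i ∈ range G, ((n + 1 - i : ℕ) : ℝ) ≤
        ∑ i ∈ range G, (((n - i : ℕ) : ℝ) + (if i < n + 1 then (1 : ℝ) else 0)) := by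
      refine sum_le_sum (fun i _ => ?_)
      split_ifs with hi
      · have : n + 1 - i = (n - i) + 1 := by omega
        rw [this]; push_cast; exact le_refl _
      · have : n + 1 - i = 0 := by omega
        rw [this]
        have h0 : (0 : ℝ) ≤ ((n - i : ℕ) : ℝ) := Nat.cast_nonneg _
        simp only [Nat.cast_zero]
        linarith
    have h2 : ∑ i ∈ range G, (if i < n + 1 then (1 : ℝ) else 0) ≤ (n : ℝ) + 1 := by
      have := cnt_inner G (n + 1) 0
      simpa using this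
    rw [sum_add_distrib] at h1
    push_cast
    nlinarith

theorem cntT (G n : ℕ) : ∑ i ∈ range G, ∑ j ∈ range G, (if i + j < n then (1 : ℝ) else 0) ≤
    (n : ℝ) * (n + 1) / 2 :=
  (sum_le_sum (fun i _ => cnt_inner G n i)).trans (tri G n)

theorem cntW (G : ℕ) (w : ℝ) (hw : 0 ≤ w) :
    ∑ i ∈ range G, ∑ j ∈ range G, (if (i : ℝ) + j < w + 1 then (1 : ℝ) else 0) ≤
    (w + 2) * (w + 3) / 2 := by
  have h1 : ∀ i j : ℕ, ((i : ℝ) + j < w + 1 ↔ i + j < ⌈w + 1⌉₊) := by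
    intro i j
    rw [Nat.lt_ceil]
    push_cast
    exact Iff.rfl
  simp only [h1]
  refine (cntT G _).trans ?_
  have h2 : (⌈w + 1⌉₊ : ℝ) < w + 2 := by
    have := Nat.ceil_lt_add_one (show (0 : ℝ) ≤ w + 1 by linarith)
    linarith
  have h3 : (0 : ℝ) ≤ (⌈w + 1⌉₊ : ℝ) := Nat.cast_nonneg _
  nlinarith

theorem cntE (G m : ℕ) :
    ∑ i ∈ range G, ∑ j ∈ range G, (if i + j + 2 = m then (1 : ℝ) else 0) ≤ G := by
  have h : ∀ i ∈ range G, ∑ j ∈ range G, (if i + j + 2 = m then (1 : ℝ) else 0) ≤ 1 := by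
    intro i _
    rw [← sum_filter, sum_const, nsmul_eq_mul, mul_one]
    have h : #((range G).filter (fun j => i + j + 2 = m)) ≤ 1 := by
      rw [card_le_one]
      intro a ha b hb
      rw [mem_filter] at ha hb
      omega
    exact_mod_cast h
  refine (sum_le_sum h).trans ?_
  rw [sum_const, nsmul_eq_mul, mul_one, card_range]

theorem cntLow (G : ℕ) (hG : 1 ≤ G) :
    (G : ℝ) * (G - 1) / 2 ≤
      ∑ i ∈ range G, ∑ j ∈ range G, (if i + j + 1 < G then (1 : ℝ) else 0) := by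
  have h : ∀ i ∈ range G, ((G - 1 - i : ℕ) : ℝ) ≤
      ∑ j ∈ range G, (if i + j + 1 < G then (1 : ℝ) else 0) := by
    intro i _
    rw [← sum_filter, sum_const, nsmul_eq_mul, mul_one]
    have h : #(range (G - 1 - i)) ≤ #((range G).filter (fun j => i + j + 1 < G)) :=
      card_le_card (fun j hj => by
        rw [mem_range] at hj
        rw [mem_filter, mem_range]
        omega)
    rw [card_range] at h
    exact_mod_cast h
  refine le_trans (le_of_eq ?_) (sum_le_sum h)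
  rw [← Nat.cast_sum, sum_range_reflect (fun i => i) G]
  have h2 := sum_range_id_mul_two G
  have h3 : ((∑ i ∈ range G, i : ℕ) : ℝ) * 2 = (G : ℝ) * (G - 1) := by
    have : (((∑ i ∈ range G, i) * 2 : ℕ) : ℝ) = ((G * (G - 1) : ℕ) : ℝ) := by rw [h2]
    rw [Nat.cast_mul, Nat.cast_mul, Nat.cast_sub hG] at this
    push_cast at this ⊢
    exact this
  linarith

theorem cntTau (G : ℕ) :
    ∑ i ∈ range G, ∑ j ∈ range G, (if |(G : ℝ) - 1 - i - j| < G / 8 then (1 : ℝ) else 0) ≤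
      ((G : ℝ) / 4 + 1) * G := by
  have h : ∀ i ∈ range G, ∑ j ∈ range G, (if |(G : ℝ) - 1 - i - j| < G / 8 then (1 : ℝ) else 0)
      ≤ (G : ℝ) / 4 + 1 := by
    intro i _
    rw [← sum_filter, sum_const, nsmul_eq_mul, mul_one]
    set c : ℝ := (G : ℝ) - 1 - i with hc
    have h1 : #((range G).filter (fun j : ℕ => |c - j| < G / 8)) ≤
        #(Ioc ⌊c - G / 8⌋ ⌊c + G / 8⌋) := by
      refine card_le_card_of_injOn (fun j : ℕ => (j : ℤ)) ?_ ?_
      · intro j hj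
        rw [mem_coe, mem_filter, abs_lt] at hj
        rw [mem_coe, mem_Ioc, Int.floor_lt, Int.le_floor]
        push_cast
        constructor <;> linarith [hj.2.1, hj.2.2]
      · intro a _ b _ hab
        exact Int.ofNat_injective hab
    rw [Int.card_Ioc] at h1
    have h2 : ((⌊c + G / 8⌋ - ⌊c - G / 8⌋).toNat : ℝ) ≤ (G : ℝ) / 4 + 1 := by
      have h3 : (((⌊c + G / 8⌋ - ⌊c - G / 8⌋).toNat : ℤ) : ℝ) ≤ (G : ℝ) / 4 + 1 := by
        rw [Int.toNat_eq_max]
        push_cast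
        refine max_le ?_ ?_
        · have := Int.floor_le (c + G / 8)
          have := Int.lt_floor_add_one (c - G / 8)
          linarith
        · have : (0 : ℝ) ≤ G := Nat.cast_nonneg _
          linarith
      exact_mod_cast h3
    have h4 : (#((range G).filter (fun j : ℕ => |c - j| < G / 8)) : ℝ) ≤
        ((⌊c + G / 8⌋ - ⌊c - G / 8⌋).toNat : ℝ) := by exact_mod_cast h1
    linarith
  refine (sum_le_sum h).trans ?_
  rw [sum_const, nsmul_eq_mul, card_range]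
  linarith

theorem cntProd (G : ℕ) (c : ℝ) :
    ∑ i ∈ range G, ∑ j ∈ range G, (((i : ℝ) - (G - 1) / 2) * ((j : ℝ) - (G - 1) / 2) * c) = 0 := by
  have h0 : ∀ n : ℕ, ∑ i ∈ range n, (i : ℝ) = (n : ℝ) * (n - 1) / 2 := by
    intro n
    induction n with
    | zero => simp
    | succ n ih => rw [sum_range_succ, ih]; push_cast; ring
  have h1 : ∑ j ∈ range G, ((j : ℝ) - (G - 1) / 2) = 0 := by
    rw [sum_sub_distrib, h0, sum_const, nsmul_eq_mul, card_range]
    ring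
  refine sum_eq_zero (fun i _ => ?_)
  rw [← sum_mul, ← mul_sum, h1]
  ring

/-! ### The pointwise inequality -/

theorem pw (U V : ℝ) (hU : |U| ≤ 1) (hV : |V| ≤ 1) :
    (if 0 < U then (1 : ℝ) else 0) + (if 0 < V then (1 : ℝ) else 0) - 1 + U * V / 2 + 1 / 128
      - 1 / 128 * (if |U| < 1 / 8 then (1 : ℝ) else 0)
      - 1 / 128 * (if |V| < 1 / 8 then (1 : ℝ) else 0)
      ≤ 2 * (if 0 < U ∧ 0 < V then (1 : ℝ) else 0) := by
  have hUV : U * V ≤ 1 := by
    have h1 : |U * V| ≤ 1 := by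
      rw [abs_mul]
      exact mul_le_one₀ hU (abs_nonneg _) hV
    exact (le_abs_self _).trans h1
  have i1 : (0 : ℝ) ≤ (if |U| < 1 / 8 then (1 : ℝ) else 0) := by split_ifs <;> norm_num
  have i2 : (0 : ℝ) ≤ (if |V| < 1 / 8 then (1 : ℝ) else 0) := by split_ifs <;> norm_num
  by_cases h1 : 0 < U
  · by_cases h2 : 0 < V
    · rw [if_pos h1, if_pos h2, if_pos (And.intro h1 h2)]
      linarith
    · rw [if_pos h1, if_neg h2, if_neg (show ¬ (0 < U ∧ 0 < V) from fun h => h2 h.2)]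
      have hV0 : V ≤ 0 := not_lt.1 h2
      have hneg : U * V ≤ 0 := mul_nonpos_of_nonneg_of_nonpos h1.le hV0
      by_cases h3 : |U| < 1 / 8
      · rw [if_pos h3]; linarith
      · by_cases h4 : |V| < 1 / 8
        · rw [if_pos h4]; linarith
        · rw [if_neg h3, if_neg h4]
          rw [abs_of_pos h1, not_lt] at h3
          rw [abs_of_nonpos hV0, not_lt] at h4
          nlinarith
  · have hU0 : U ≤ 0 := not_lt.1 h1
    by_cases h2 : 0 < V
    · rw [if_neg h1, if_pos h2, if_neg (show ¬ (0 < U ∧ 0 < V) from fun h => h1 h.1)]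
      have hneg : U * V ≤ 0 := mul_nonpos_of_nonpos_of_nonneg hU0 h2.le
      by_cases h3 : |U| < 1 / 8
      · rw [if_pos h3]; linarith
      · by_cases h4 : |V| < 1 / 8
        · rw [if_pos h4]; linarith
        · rw [if_neg h3, if_neg h4]
          rw [abs_of_nonpos hU0, not_lt] at h3
          rw [abs_of_pos h2, not_lt] at h4
          nlinarith
    · rw [if_neg h1, if_neg h2, if_neg (show ¬ (0 < U ∧ 0 < V) from fun h => h1 h.1)]
      linarith

/-- the discretised no-carry condition -/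
def LL (G : ℕ) (w : ℝ) (S : ℕ) : Prop := w + 1 ≤ (S : ℝ) ∧ (S : ℝ) ≤ G - 3 + w

open Classical in
/-- the part of the test function which depends on one pair -/
noncomputable def ph (G : ℕ) (w : ℝ) (i j : ℕ) : ℝ :=
  (if i + j + 1 < G then (1 : ℝ) else 0) -
    1 / 128 * (if |(G : ℝ) - 1 - i - j| < G / 8 then (1 : ℝ) else 0) -
    2 * (if (i : ℝ) + j < w + 1 then (1 : ℝ) else 0) -
    2 * (if i + j + 2 = G then (1 : ℝ) else 0)

theorem ph_abs (G : ℕ) (w : ℝ) (i j : ℕ) : |ph G w i j| ≤ 6 := by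
  unfold ph
  rw [abs_le]
  constructor <;> split_ifs <;> norm_num

theorem ph_sum (G : ℕ) (hG : 1 ≤ G) (w : ℝ) (hw : 0 ≤ w) :
    (G : ℝ) * (G - 1) / 2 - 1 / 128 * (((G : ℝ) / 4 + 1) * G) - 2 * ((w + 2) * (w + 3) / 2) -
      2 * G ≤ ∑ i ∈ range G, ∑ j ∈ range G, ph G w i j := by
  have h1 := cntLow G hG
  have h2 := cntTau G
  have h3 := cntW G w hw
  have h4 := cntE G G
  have h5 : ∑ i ∈ range G, ∑ j ∈ range G, ph G w i j =
      ∑ i ∈ range G, ∑ j ∈ range G, (if i + j + 1 < G then (1 : ℝ) else 0) -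
      1 / 128 * ∑ i ∈ range G, ∑ j ∈ range G,
        (if |(G : ℝ) - 1 - i - j| < G / 8 then (1 : ℝ) else 0) -
      2 * ∑ i ∈ range G, ∑ j ∈ range G, (if (i : ℝ) + j < w + 1 then (1 : ℝ) else 0) -
      2 * ∑ i ∈ range G, ∑ j ∈ range G, (if i + j + 2 = G then (1 : ℝ) else 0) := by
    unfold ph
    simp only [sum_sub_distrib, mul_sum]
  rw [h5]
  linarith

theorem pw2 (G : ℕ) (hG : 1 ≤ G) (w z : ℝ) (hw : 0 ≤ w) (hz : 0 ≤ z) (i j k l : ℕ) (hi : i < G)
    (hj : j < G) (hk : k < G) (hl : l < G) :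
    ph G w i j + ph G z k l - 1 +
      (((i : ℝ) - (G - 1) / 2) * ((k : ℝ) - (G - 1) / 2) * (1 / (G : ℝ) ^ 2) +
       ((i : ℝ) - (G - 1) / 2) * ((l : ℝ) - (G - 1) / 2) * (1 / (G : ℝ) ^ 2) +
       ((j : ℝ) - (G - 1) / 2) * ((k : ℝ) - (G - 1) / 2) * (1 / (G : ℝ) ^ 2) +
       ((j : ℝ) - (G - 1) / 2) * ((l : ℝ) - (G - 1) / 2) * (1 / (G : ℝ) ^ 2)) / 2 + 1 / 128 ≤
      2 * (open Classical in if LL G w (i + j) ∧ LL G z (k + l) then (1 : ℝ) else 0) := by
  classical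
  have hG0 : (0 : ℝ) < G := by exact_mod_cast hG
  set U : ℝ := ((G : ℝ) - 1 - i - j) / G with hU
  set V : ℝ := ((G : ℝ) - 1 - k - l) / G with hV
  have hi' : (i : ℝ) ≤ G - 1 := by
    have : (i : ℝ) + 1 ≤ G := by exact_mod_cast hi
    linarith
  have hj' : (j : ℝ) ≤ G - 1 := by
    have : (j : ℝ) + 1 ≤ G := by exact_mod_cast hj
    linarith
  have hk' : (k : ℝ) ≤ G - 1 := by
    have : (k : ℝ) + 1 ≤ G := by exact_mod_cast hk
    linarith
  have hl' : (l : ℝ) ≤ G - 1 := by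
    have : (l : ℝ) + 1 ≤ G := by exact_mod_cast hl
    linarith
  have hi0 : (0 : ℝ) ≤ i := Nat.cast_nonneg _
  have hj0 : (0 : ℝ) ≤ j := Nat.cast_nonneg _
  have hk0 : (0 : ℝ) ≤ k := Nat.cast_nonneg _
  have hl0 : (0 : ℝ) ≤ l := Nat.cast_nonneg _
  have hU1 : |U| ≤ 1 := by
    rw [hU, abs_div, abs_of_pos hG0, div_le_one hG0, abs_le]
    constructor <;> linarith
  have hV1 : |V| ≤ 1 := by
    rw [hV, abs_div, abs_of_pos hG0, div_le_one hG0, abs_le]
    constructor <;> linarith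
  have hprod : ((i : ℝ) - (G - 1) / 2) * ((k : ℝ) - (G - 1) / 2) * (1 / (G : ℝ) ^ 2) +
       ((i : ℝ) - (G - 1) / 2) * ((l : ℝ) - (G - 1) / 2) * (1 / (G : ℝ) ^ 2) +
       ((j : ℝ) - (G - 1) / 2) * ((k : ℝ) - (G - 1) / 2) * (1 / (G : ℝ) ^ 2) +
       ((j : ℝ) - (G - 1) / 2) * ((l : ℝ) - (G - 1) / 2) * (1 / (G : ℝ) ^ 2) = U * V := by
    rw [hU, hV]
    field_simp
    ring
  rw [hprod]
  have hpw := pw U V hU1 hV1
  have c1 : (0 < U ↔ i + j + 1 < G) := by
    rw [hU, div_pos_iff_of_pos_right hG0]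
    constructor
    · intro h
      have : ((i + j + 1 : ℕ) : ℝ) < (G : ℝ) := by push_cast; linarith
      exact_mod_cast this
    · intro h
      have : ((i + j + 1 : ℕ) : ℝ) < (G : ℝ) := by exact_mod_cast h
      push_cast at this
      linarith
  have c2 : (0 < V ↔ k + l + 1 < G) := by
    rw [hV, div_pos_iff_of_pos_right hG0]
    constructor
    · intro h
      have : ((k + l + 1 : ℕ) : ℝ) < (G : ℝ) := by push_cast; linarith
      exact_mod_cast this
    · intro h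
      have : ((k + l + 1 : ℕ) : ℝ) < (G : ℝ) := by exact_mod_cast h
      push_cast at this
      linarith
  have c3 : (|U| < 1 / 8 ↔ |(G : ℝ) - 1 - i - j| < G / 8) := by
    rw [hU, abs_div, abs_of_pos hG0, div_lt_iff₀ hG0]
    constructor <;> intro h <;> linarith
  have c4 : (|V| < 1 / 8 ↔ |(G : ℝ) - 1 - k - l| < G / 8) := by
    rw [hV, abs_div, abs_of_pos hG0, div_lt_iff₀ hG0]
    constructor <;> intro h <;> linarith
  simp only [c1, c2, c3, c4] at hpw
  have hle2 : (2 : ℝ) * (if i + j + 1 < G ∧ k + l + 1 < G then (1 : ℝ) else 0) ≤ 2 := by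
    split_ifs <;> norm_num
  have hr0 : (0 : ℝ) ≤ 2 * (if LL G w (i + j) ∧ LL G z (k + l) then (1 : ℝ) else 0) := by
    split_ifs <;> norm_num
  have n1 : (0 : ℝ) ≤ (if (i : ℝ) + j < w + 1 then (1 : ℝ) else 0) := by split_ifs <;> norm_num
  have n2 : (0 : ℝ) ≤ (if (k : ℝ) + l < z + 1 then (1 : ℝ) else 0) := by split_ifs <;> norm_num
  have n3 : (0 : ℝ) ≤ (if i + j + 2 = G then (1 : ℝ) else 0) := by split_ifs <;> norm_num
  have n4 : (0 : ℝ) ≤ (if k + l + 2 = G then (1 : ℝ) else 0) := by split_ifs <;> norm_num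
  unfold ph
  by_cases m1 : (i : ℝ) + j < w + 1
  · rw [if_pos m1]; linarith
  by_cases m2 : (k : ℝ) + l < z + 1
  · rw [if_pos m2]; linarith
  by_cases m3 : i + j + 2 = G
  · rw [if_pos m3]; linarith
  by_cases m4 : k + l + 2 = G
  · rw [if_pos m4]; linarith
  have hfin : (2 : ℝ) * (if i + j + 1 < G ∧ k + l + 1 < G then (1 : ℝ) else 0) ≤
      2 * (if LL G w (i + j) ∧ LL G z (k + l) then (1 : ℝ) else 0) := by
    by_cases hc : i + j + 1 < G ∧ k + l + 1 < G
    · have hLL : LL G w (i + j) ∧ LL G z (k + l) := by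
        have e1 : ((i + j + 3 : ℕ) : ℝ) ≤ (G : ℝ) := by
          have : i + j + 3 ≤ G := by omega
          exact_mod_cast this
        have e2 : ((k + l + 3 : ℕ) : ℝ) ≤ (G : ℝ) := by
          have : k + l + 3 ≤ G := by omega
          exact_mod_cast this
        push_cast at e1 e2
        unfold LL
        push_cast
        exact ⟨⟨by linarith, by linarith⟩, ⟨by linarith, by linarith⟩⟩
      rw [if_pos hc, if_pos hLL]
    · rw [if_neg hc]
      linarith
  linarith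

open Classical in
theorem caseC {ι : Type} {G : ℕ} {e : ℝ} {X : Finset ι} {A B C D : ι → ℕ}
    (hG : (G : ℝ) = 100000) (he : (G : ℝ) ^ 2 * e = 1 / 10 ^ 7) (hAB : Eqd G e X A B)
    (hAC : Eqd G e X A C) (hAD : Eqd G e X A D) (hBC : Eqd G e X B C) (hBD : Eqd G e X B D)
    (hCD : Eqd G e X C D) (w z : ℝ) (hw : 0 ≤ w) (hw' : w ≤ 2000) (hz : 0 ≤ z) (hz' : z ≤ 2000) :
    1 / 2000 * (#X : ℝ) ≤
      #(X.filter (fun x => LL G w (A x + B x) ∧ LL G z (C x + D x))) := by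
  have hG1 : 1 ≤ G := by
    have : (1 : ℝ) ≤ G := by rw [hG]; norm_num
    exact_mod_cast this
  have hX0 : (0 : ℝ) ≤ #X := Nat.cast_nonneg _
  have s1 := hAB.avg (ph G w) 6 (fun i _ j _ => ph_abs G w i j)
  have s2 := hCD.avg (ph G z) 6 (fun i _ j _ => ph_abs G z i j)
  set P : ℕ → ℕ → ℝ := fun i j =>
    ((i : ℝ) - (G - 1) / 2) * ((j : ℝ) - (G - 1) / 2) * (1 / (G : ℝ) ^ 2) with hP
  have hPb : ∀ i < G, ∀ j < G, |P i j| ≤ 1 := by
    intro i hi j hj
    have hi' : (i : ℝ) + 1 ≤ G := by exact_mod_cast hi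
    have hj' : (j : ℝ) + 1 ≤ G := by exact_mod_cast hj
    have hi0 : (0 : ℝ) ≤ i := Nat.cast_nonneg _
    have hj0 : (0 : ℝ) ≤ j := Nat.cast_nonneg _
    have hG0 : (0 : ℝ) < G := by exact_mod_cast hG1
    have b1 : |(i : ℝ) - (G - 1) / 2| ≤ G := by rw [abs_le]; constructor <;> linarith
    have b2 : |(j : ℝ) - (G - 1) / 2| ≤ G := by rw [abs_le]; constructor <;> linarith
    rw [hP]
    simp only
    rw [abs_mul, abs_mul, abs_of_pos (show (0 : ℝ) < 1 / (G : ℝ) ^ 2 by positivity),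
      mul_one_div, div_le_one (by positivity), sq]
    exact mul_le_mul b1 b2 (abs_nonneg _) hG0.le
  have hP0 : ∑ i ∈ range G, ∑ j ∈ range G, P i j = 0 := cntProd G _
  have t1 := hAC.avg P 1 hPb
  have t2 := hAD.avg P 1 hPb
  have t3 := hBC.avg P 1 hPb
  have t4 := hBD.avg P 1 hPb
  rw [hP0, mul_zero, sub_zero, he] at t1 t2 t3 t4
  rw [he] at s1 s2
  have u1 := ph_sum G hG1 w hw
  have u2 := ph_sum G hG1 z hz
  have hpt : ∑ x ∈ X, (ph G w (A x) (B x) + ph G z (C x) (D x) - 1 +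
      (P (A x) (C x) + P (A x) (D x) + P (B x) (C x) + P (B x) (D x)) / 2 + 1 / 128) ≤
      ∑ x ∈ X, 2 * (if LL G w (A x + B x) ∧ LL G z (C x + D x) then (1 : ℝ) else 0) := by
    refine sum_le_sum (fun x hx => ?_)
    exact pw2 G hG1 w z hw hz (A x) (B x) (C x) (D x) (hAB.hA x hx) (hAB.hB x hx)
      (hCD.hA x hx) (hCD.hB x hx)
  rw [← mul_sum, sum_boole] at hpt
  have hexp : ∑ x ∈ X, (ph G w (A x) (B x) + ph G z (C x) (D x) - 1 +
      (P (A x) (C x) + P (A x) (D x) + P (B x) (C x) + P (B x) (D x)) / 2 + 1 / 128) =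
      ∑ x ∈ X, ph G w (A x) (B x) + ∑ x ∈ X, ph G z (C x) (D x) - #X +
      (∑ x ∈ X, P (A x) (C x) + ∑ x ∈ X, P (A x) (D x) + ∑ x ∈ X, P (B x) (C x) +
        ∑ x ∈ X, P (B x) (D x)) / 2 + 1 / 128 * #X := by
    rw [sum_add_distrib, sum_add_distrib, sum_sub_distrib, sum_add_distrib, ← sum_div,
      sum_add_distrib, sum_add_distrib, sum_add_distrib, sum_const, sum_const, nsmul_eq_mul,
      nsmul_eq_mul]
    ring
  rw [hexp] at hpt
  set s := ∑ i ∈ range G, ∑ j ∈ range G, ph G w i j with hs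
  set s' := ∑ i ∈ range G, ∑ j ∈ range G, ph G z i j with hs'
  have v1 : (0.497 : ℝ) * 10 ^ 10 ≤ s := by
    refine le_trans ?_ u1
    rw [hG]
    have : (w + 2) * (w + 3) ≤ 2002 * 2003 := by
      exact mul_le_mul (by linarith) (by linarith) (by linarith) (by norm_num)
    norm_num
    norm_num at this
    linarith
  have v2 : (0.497 : ℝ) * 10 ^ 10 ≤ s' := by
    refine le_trans ?_ u2
    rw [hG]
    have : (z + 2) * (z + 3) ≤ 2002 * 2003 := by
      exact mul_le_mul (by linarith) (by linarith) (by linarith) (by norm_num)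
    norm_num
    norm_num at this
    linarith
  have w1 : (0.497 : ℝ) * #X ≤ #X / (G : ℝ) ^ 2 * s := by
    rw [hG]
    have := mul_le_mul_of_nonneg_left v1 hX0
    rw [div_mul_eq_mul_div, le_div_iff₀ (by norm_num)]
    norm_num
    norm_num at this
    linarith
  have w2 : (0.497 : ℝ) * #X ≤ #X / (G : ℝ) ^ 2 * s' := by
    rw [hG]
    have := mul_le_mul_of_nonneg_left v2 hX0
    rw [div_mul_eq_mul_div, le_div_iff₀ (by norm_num)]
    norm_num
    norm_num at this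
    linarith
  rw [abs_le] at s1 s2 t1 t2 t3 t4
  have a1 := s1.1
  have a2 := s2.1
  have a3 := t1.1
  have a4 := t2.1
  have a5 := t3.1
  have a6 := t4.1
  norm_num at a1 a2 a3 a4 a5 a6 w1 w2 hpt ⊢
  linarith

theorem cntW' (G : ℕ) (w : ℝ) (hw : w ≤ G) :
    ∑ i ∈ range G, ∑ j ∈ range G, (if (G : ℝ) - 3 + w < (i : ℝ) + j then (1 : ℝ) else 0) ≤
    ((G : ℝ) - w + 2) * (G - w + 3) / 2 := by
  refine le_trans (le_of_eq ?_) (cntW G ((G : ℝ) - w) (by linarith))
  rw [← sum_range_reflect]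
  refine sum_congr rfl (fun i hi => ?_)
  rw [← sum_range_reflect]
  refine sum_congr rfl (fun j hj => ?_)
  rw [mem_range] at hi hj
  have e1 : ((G - 1 - i : ℕ) : ℝ) = (G : ℝ) - 1 - i := by
    rw [Nat.sub_sub, Nat.cast_sub (by omega)]; push_cast; ring
  have e2 : ((G - 1 - j : ℕ) : ℝ) = (G : ℝ) - 1 - j := by
    rw [Nat.sub_sub, Nat.cast_sub (by omega)]; push_cast; ring
  rw [e1, e2]
  have h : ((G : ℝ) - 3 + w < (G : ℝ) - 1 - i + (G - 1 - j) ↔ (i : ℝ) + j < G - w + 1) := by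
    constructor <;> intro h <;> linarith
  simp only [h]

open Classical in
/-- lower bound for the indicator of the discretised no-carry condition -/
noncomputable def pn (G : ℕ) (w : ℝ) (i j : ℕ) : ℝ :=
  1 - (if (i : ℝ) + j < w + 1 then (1 : ℝ) else 0) -
    (if (G : ℝ) - 3 + w < (i : ℝ) + j then (1 : ℝ) else 0)

theorem pn_abs (G : ℕ) (w : ℝ) (i j : ℕ) : |pn G w i j| ≤ 2 := by
  unfold pn
  rw [abs_le]
  constructor <;> split_ifs <;> norm_num

theorem pn_sum (G : ℕ) (w : ℝ) (hw : 0 ≤ w) (hw' : w ≤ G) :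
    (G : ℝ) ^ 2 - (w + 2) * (w + 3) / 2 - ((G : ℝ) - w + 2) * (G - w + 3) / 2 ≤
      ∑ i ∈ range G, ∑ j ∈ range G, pn G w i j := by
  have h3 := cntW G w hw
  have h4 := cntW' G w hw'
  have h5 : ∑ i ∈ range G, ∑ j ∈ range G, pn G w i j =
      (G : ℝ) ^ 2 -
      ∑ i ∈ range G, ∑ j ∈ range G, (if (i : ℝ) + j < w + 1 then (1 : ℝ) else 0) -
      ∑ i ∈ range G, ∑ j ∈ range G, (if (G : ℝ) - 3 + w < (i : ℝ) + j then (1 : ℝ) else 0) := by
    unfold pn
    simp only [sum_sub_distrib, sum_const, card_range, nsmul_eq_mul]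
    ring
  rw [h5]
  linarith

theorem pn_le (G : ℕ) (w : ℝ) (i j : ℕ) :
    pn G w i j ≤ (open Classical in if LL G w (i + j) then (1 : ℝ) else 0) := by
  classical
  unfold pn
  have n1 : (0 : ℝ) ≤ (if (i : ℝ) + j < w + 1 then (1 : ℝ) else 0) := by split_ifs <;> norm_num
  have n2 : (0 : ℝ) ≤ (if (G : ℝ) - 3 + w < (i : ℝ) + j then (1 : ℝ) else 0) := by
    split_ifs <;> norm_num
  by_cases h : LL G w (i + j)
  · rw [if_pos h]; linarith
  · rw [if_neg h]
    by_cases h1 : (i : ℝ) + j < w + 1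
    · rw [if_pos h1]; linarith
    · by_cases h2 : (G : ℝ) - 3 + w < (i : ℝ) + j
      · rw [if_pos h2]; linarith
      · refine absurd ?_ h
        unfold LL
        push_cast
        exact ⟨not_lt.1 h1, not_lt.1 h2⟩

open Classical in
theorem caseN {ι : Type} {G : ℕ} {e : ℝ} {X : Finset ι} {A B C D : ι → ℕ}
    (hG : (G : ℝ) = 100000) (he : (G : ℝ) ^ 2 * e = 1 / 10 ^ 7) (hAB : Eqd G e X A B)
    (hCD : Eqd G e X C D) (w z : ℝ) (hw : 0 ≤ w) (hw' : w ≤ G) (hz : 0 ≤ z) (hz' : z ≤ G)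
    (hN : (G : ℝ) ^ 2 / 100 ≤ w * (G - w) + z * (G - z)) :
    1 / 2000 * (#X : ℝ) ≤
      #(X.filter (fun x => LL G w (A x + B x) ∧ LL G z (C x + D x))) := by
  have hX0 : (0 : ℝ) ≤ #X := Nat.cast_nonneg _
  have s1 := hAB.avg (pn G w) 2 (fun i _ j _ => pn_abs G w i j)
  have s2 := hCD.avg (pn G z) 2 (fun i _ j _ => pn_abs G z i j)
  rw [he] at s1 s2
  have u1 := pn_sum G w hw hw'
  have u2 := pn_sum G z hz hz'
  have hpt : ∑ x ∈ X, (pn G w (A x) (B x) + pn G z (C x) (D x) - 1) ≤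
      ∑ x ∈ X, (if LL G w (A x + B x) ∧ LL G z (C x + D x) then (1 : ℝ) else 0) := by
    refine sum_le_sum (fun x hx => ?_)
    have h1 := pn_le G w (A x) (B x)
    have h2 := pn_le G z (C x) (D x)
    by_cases c1 : LL G w (A x + B x)
    · by_cases c2 : LL G z (C x + D x)
      · rw [if_pos c1] at h1
        rw [if_pos c2] at h2
        rw [if_pos (And.intro c1 c2)]
        linarith
      · rw [if_pos c1] at h1
        rw [if_neg c2] at h2
        rw [if_neg (show ¬ (LL G w (A x + B x) ∧ LL G z (C x + D x)) from fun h => c2 h.2)]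
        linarith
    · rw [if_neg c1] at h1
      rw [if_neg (show ¬ (LL G w (A x + B x) ∧ LL G z (C x + D x)) from fun h => c1 h.1)]
      have h3 : (if LL G z (C x + D x) then (1 : ℝ) else 0) ≤ 1 := by split_ifs <;> norm_num
      linarith
  rw [sum_boole] at hpt
  have hexp : ∑ x ∈ X, (pn G w (A x) (B x) + pn G z (C x) (D x) - 1) =
      ∑ x ∈ X, pn G w (A x) (B x) + ∑ x ∈ X, pn G z (C x) (D x) - #X := by
    rw [sum_sub_distrib, sum_add_distrib, sum_const, nsmul_eq_mul]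
    ring
  rw [hexp] at hpt
  set s := ∑ i ∈ range G, ∑ j ∈ range G, pn G w i j with hs
  set s' := ∑ i ∈ range G, ∑ j ∈ range G, pn G z i j with hs'
  have v1 : (1.001 : ℝ) * 10 ^ 10 ≤ s + s' := by
    refine le_trans ?_ (add_le_add u1 u2)
    rw [hG] at hN ⊢
    nlinarith
  have w1 : (1.001 : ℝ) * #X ≤ #X / (G : ℝ) ^ 2 * s + #X / (G : ℝ) ^ 2 * s' := by
    rw [hG, ← mul_add]
    have := mul_le_mul_of_nonneg_left v1 hX0
    rw [div_mul_eq_mul_div, le_div_iff₀ (by norm_num)]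
    norm_num
    norm_num at this
    linarith
  rw [abs_le] at s1 s2
  have a1 := s1.1
  have a2 := s2.1
  norm_num at a1 a2 w1 hpt ⊢
  linarith

theorem LL_reflect (G : ℕ) (w : ℝ) (a b : ℕ) (ha : a < G) (hb : b < G) :
    LL G ((G : ℝ) - w) ((G - 1 - a) + (G - 1 - b)) ↔ LL G w (a + b) := by
  unfold LL
  have e1 : ((G - 1 - a : ℕ) : ℝ) = (G : ℝ) - 1 - a := by
    rw [Nat.sub_sub, Nat.cast_sub (by omega)]; push_cast; ring
  have e2 : ((G - 1 - b : ℕ) : ℝ) = (G : ℝ) - 1 - b := by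
    rw [Nat.sub_sub, Nat.cast_sub (by omega)]; push_cast; ring
  rw [Nat.cast_add, Nat.cast_add, e1, e2]
  constructor
  · rintro ⟨h1, h2⟩
    exact ⟨by linarith, by linarith⟩
  · rintro ⟨h1, h2⟩
    exact ⟨by linarith, by linarith⟩

theorem split_w (w : ℝ) (h : w * (100000 - w) < 100000 ^ 2 / 100) : w ≤ 2000 ∨ 98000 ≤ w := by
  by_contra hc
  rw [not_or, not_le, not_le] at hc
  nlinarith [mul_pos (sub_pos.2 hc.1) (sub_pos.2 hc.2)]

open Classical in
theorem caseAll {ι : Type} {G : ℕ} {e : ℝ} {X : Finset ι} {A B C D : ι → ℕ}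
    (hG : (G : ℝ) = 100000) (he : (G : ℝ) ^ 2 * e = 1 / 10 ^ 7) (hAB : Eqd G e X A B)
    (hAC : Eqd G e X A C) (hAD : Eqd G e X A D) (hBC : Eqd G e X B C) (hBD : Eqd G e X B D)
    (hCD : Eqd G e X C D) (w z : ℝ) (hw : 0 ≤ w) (hw' : w ≤ G) (hz : 0 ≤ z) (hz' : z ≤ G) :
    1 / 2000 * (#X : ℝ) ≤
      #(X.filter (fun x => LL G w (A x + B x) ∧ LL G z (C x + D x))) := by
  by_cases hN : (G : ℝ) ^ 2 / 100 ≤ w * (G - w) + z * (G - z)
  · exact caseN hG he hAB hCD w z hw hw' hz hz' hN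
  rw [not_le] at hN
  have g1 : 0 ≤ w * (G - w) := mul_nonneg hw (by linarith)
  have g2 : 0 ≤ z * (G - z) := mul_nonneg hz (by linarith)
  have k1 := split_w w (by rw [hG] at hN g1 g2; linarith)
  have k2 := split_w z (by rw [hG] at hN g1 g2; linarith)
  rcases k1 with k1 | k1 <;> rcases k2 with k2 | k2
  · exact caseC hG he hAB hAC hAD hBC hBD hCD w z hw k1 hz k2
  · refine (caseC hG he hAB hAC.refl2 hAD.refl2 hBC.refl2 hBD.refl2 hCD.refl1.refl2 w
      ((G : ℝ) - z) hw k1 (by linarith) (by linarith)).trans (le_of_eq ?_)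
    have e1 : X.filter (fun x => LL G w (A x + B x) ∧
        LL G ((G : ℝ) - z) ((G - 1 - C x) + (G - 1 - D x))) =
        X.filter (fun x => LL G w (A x + B x) ∧ LL G z (C x + D x)) :=
      filter_congr (fun x hx => by
        rw [LL_reflect G z (C x) (D x) (hCD.hA x hx) (hCD.hB x hx)])
    rw [e1]
  · refine (caseC hG he hAB.refl1.refl2 hAC.refl1 hAD.refl1 hBC.refl1 hBD.refl1 hCD
      ((G : ℝ) - w) z (by linarith) (by linarith) hz k2).trans (le_of_eq ?_)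
    have e1 : X.filter (fun x => LL G ((G : ℝ) - w) ((G - 1 - A x) + (G - 1 - B x)) ∧
        LL G z (C x + D x)) =
        X.filter (fun x => LL G w (A x + B x) ∧ LL G z (C x + D x)) :=
      filter_congr (fun x hx => by
        rw [LL_reflect G w (A x) (B x) (hAB.hA x hx) (hAB.hB x hx)])
    rw [e1]
  · refine (caseC hG he hAB.refl1.refl2 hAC.refl1.refl2 hAD.refl1.refl2 hBC.refl1.refl2
      hBD.refl1.refl2 hCD.refl1.refl2
      ((G : ℝ) - w) ((G : ℝ) - z) (by linarith) (by linarith) (by linarith)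
      (by linarith)).trans (le_of_eq ?_)
    have e1 : X.filter (fun x => LL G ((G : ℝ) - w) ((G - 1 - A x) + (G - 1 - B x)) ∧
        LL G ((G : ℝ) - z) ((G - 1 - C x) + (G - 1 - D x))) =
        X.filter (fun x => LL G w (A x + B x) ∧ LL G z (C x + D x)) :=
      filter_congr (fun x hx => by
        rw [LL_reflect G w (A x) (B x) (hAB.hA x hx) (hAB.hB x hx),
          LL_reflect G z (C x) (D x) (hCD.hA x hx) (hCD.hB x hx)])
    rw [e1]

/-! ### From the real functions to the cells -/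

theorem eqd_of {ι : Type} (G : ℕ) (e : ℝ) (X : Finset ι) (f g : ι → ℝ) (hG : 1 ≤ G)
    (hf : U01 X f) (hg : U01 X g)
    (hc : ∀ i j : ℕ, i < G → j < G →
      |(#(X.filter (fun x => ⌊(G : ℝ) * f x⌋₊ = i ∧ ⌊(G : ℝ) * g x⌋₊ = j)) : ℝ) -
        #X / (G : ℝ) ^ 2| ≤ e * #X) :
    Eqd G e X (fun x => ⌊(G : ℝ) * f x⌋₊) (fun x => ⌊(G : ℝ) * g x⌋₊) := by
  have hG0 : (0 : ℝ) < G := by exact_mod_cast hG
  refine ⟨fun x hx => ?_, fun x hx => ?_, fun i hi j hj => hc i j hi hj⟩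
  · rw [Nat.floor_lt (mul_nonneg hG0.le (hf x hx).1)]
    nlinarith [(hf x hx).2]
  · rw [Nat.floor_lt (mul_nonneg hG0.le (hg x hx).1)]
    nlinarith [(hg x hx).2]

theorem LL_to (G : ℕ) (hG : 1 ≤ G) (a b u : ℝ) (ha : 0 ≤ a) (hb : 0 ≤ b)
    (hu1 : -(1 / (G : ℝ)) ≤ u) (hu2 : u ≤ 1 + 1 / (G : ℝ))
    (h : LL G ((G : ℝ) * max 0 (min u 1)) (⌊(G : ℝ) * a⌋₊ + ⌊(G : ℝ) * b⌋₊)) :
    0 ≤ a + b - u ∧ a + b - u < 1 := by
  have hG0 : (0 : ℝ) < G := by exact_mod_cast hG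
  unfold LL at h
  push_cast at h
  have f1 := Nat.floor_le (mul_nonneg hG0.le ha)
  have f2 := Nat.floor_le (mul_nonneg hG0.le hb)
  have f3 := Nat.lt_floor_add_one ((G : ℝ) * a)
  have f4 := Nat.lt_floor_add_one ((G : ℝ) * b)
  have hGi : (G : ℝ) * (1 / (G : ℝ)) = 1 := by field_simp
  have m1 : u - 1 / (G : ℝ) ≤ max 0 (min u 1) := by
    refine le_max_of_le_right (le_min ?_ (by linarith))
    have : (0 : ℝ) ≤ 1 / (G : ℝ) := by positivity
    linarith
  have m2 : max 0 (min u 1) ≤ u + 1 / (G : ℝ) := by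
    refine max_le (by linarith) ((min_le_left _ _).trans ?_)
    have : (0 : ℝ) ≤ 1 / (G : ℝ) := by positivity
    linarith
  have m3 : (G : ℝ) * u - 1 ≤ (G : ℝ) * max 0 (min u 1) := by
    have := mul_le_mul_of_nonneg_left m1 hG0.le
    rw [mul_sub, hGi] at this
    exact this
  have m4 : (G : ℝ) * max 0 (min u 1) ≤ (G : ℝ) * u + 1 := by
    have := mul_le_mul_of_nonneg_left m2 hG0.le
    rw [mul_add, hGi] at this
    exact this
  constructor
  · have : 0 ≤ (G : ℝ) * (a + b - u) := by nlinarith [h.1]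
    exact nonneg_of_mul_nonneg_right this hG0
  · have : (G : ℝ) * (a + b - u) < G * 1 := by nlinarith [h.2]
    exact lt_of_mul_lt_mul_left this hG0.le

theorem t_BUMP4 (h : BOX2) : BUMP4 := by
  classical
  obtain ⟨G, hG⟩ : ∃ G : ℕ, G = 100000 := ⟨_, rfl⟩
  have hG1 : 1 ≤ G := by omega
  have hGr : (G : ℝ) = 100000 := by rw [hG]; norm_num
  obtain ⟨K, κ, hκ, hb⟩ := h G (1 / 10 ^ 17) hG1 (by norm_num)
  refine ⟨K, κ, 1 / 2000, 1 / 100000, hκ, by norm_num, by norm_num, ?_⟩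
  intro ι X a b c d u v ha hb' hc hd hab hac had hbc hbd hcd hu1 hu2 hv1 hv2
  have he : (G : ℝ) ^ 2 * (1 / 10 ^ 17) = 1 / 10 ^ 7 := by rw [hGr]; norm_num
  have eab := eqd_of G _ X a b hG1 ha hb' (hb ι X a b ha hb' hab)
  have eac := eqd_of G _ X a c hG1 ha hc (hb ι X a c ha hc hac)
  have ead := eqd_of G _ X a d hG1 ha hd (hb ι X a d ha hd had)
  have ebc := eqd_of G _ X b c hG1 hb' hc (hb ι X b c hb' hc hbc)
  have ebd := eqd_of G _ X b d hG1 hb' hd (hb ι X b d hb' hd hbd)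
  have ecd := eqd_of G _ X c d hG1 hc hd (hb ι X c d hc hd hcd)
  have hG0 : (0 : ℝ) < G := by rw [hGr]; norm_num
  have hbd1 : ∀ t : ℝ, 0 ≤ (G : ℝ) * max 0 (min t 1) := fun t =>
    mul_nonneg hG0.le (le_max_left _ _)
  have hbd2 : ∀ t : ℝ, (G : ℝ) * max 0 (min t 1) ≤ G := fun t => by
    have : max 0 (min t 1) ≤ (1 : ℝ) := max_le (by norm_num) (min_le_right _ _)
    nlinarith
  have key := caseAll hGr he eab eac ead ebc ebd ecd ((G : ℝ) * max 0 (min u 1))
    ((G : ℝ) * max 0 (min v 1)) (hbd1 u) (hbd2 u) (hbd1 v) (hbd2 v)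
  refine key.trans ?_
  have hsub : X.filter (fun x => LL G ((G : ℝ) * max 0 (min u 1))
      (⌊(G : ℝ) * a x⌋₊ + ⌊(G : ℝ) * b x⌋₊) ∧ LL G ((G : ℝ) * max 0 (min v 1))
      (⌊(G : ℝ) * c x⌋₊ + ⌊(G : ℝ) * d x⌋₊)) ⊆
      X.filter (fun x => (0 ≤ a x + b x - u ∧ a x + b x - u < 1) ∧
        (0 ≤ c x + d x - v ∧ c x + d x - v < 1)) := by
    intro x hx
    rw [mem_filter] at hx ⊢
    obtain ⟨hx, h1, h2⟩ := hx
    refine ⟨hx, LL_to G hG1 (a x) (b x) u (ha x hx).1 (hb' x hx).1 ?_ ?_ h1,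
      LL_to G hG1 (c x) (d x) v (hc x hx).1 (hd x hx).1 ?_ ?_ h2⟩ <;> rw [hGr] <;> linarith
  exact_mod_cast card_le_card hsub

end Pool.Agent.Helper77.CO
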