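import Pool.Agent.Helper74.CO.Goals

/-!
# Project CO (MP_c5396e_co), packet DOWNG
-/

set_option autoImplicit false

namespace Pool.Agent.Helper77.CO

open Finset Pool.Agent.Helper74.CO

section cost

variable {F : Type} [DecidableEq F]

/-- the cost of a permutation -/
def cost (X : Finset F) (T : Equiv.Perm F) : ℕ := #(X.image T \ X)

theorem cost_mul (hL : LEN) (X : Finset F) (S T : Equiv.Perm F) :
    cost X (S * T) ≤ cost X S + cost X T := (hL F X S T).1

theorem cost_inv (hL : LEN) (X : Finset F) (T : Equiv.Perm F) : cost X T⁻¹ = cost X T :=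
  (hL F X T T).2

theorem cost_one (X : Finset F) : cost X 1 = 0 := by
  unfold cost
  have h : X.image (1 : Equiv.Perm F) = X := by
    ext x
    simp
  rw [h, sdiff_self]
  rfl

theorem cost_pow (hL : LEN) (X : Finset F) (T : Equiv.Perm F) (c : ℕ) (h : cost X T ≤ c) (n : ℕ) :
    cost X (T ^ n) ≤ n * c := by
  induction n with
  | zero => rw [pow_zero, cost_one]; exact Nat.zero_le _
  | succ n ih =>
    rw [pow_succ]
    have h1 := cost_mul hL X (T ^ n) T
    rw [Nat.add_mul, Nat.one_mul]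
    omega

theorem cost_zpow (hL : LEN) (X : Finset F) (T : Equiv.Perm F) (c : ℕ) (h : cost X T ≤ c) (k : ℤ) :
    cost X (T ^ k) ≤ k.natAbs * c := by
  obtain ⟨n, rfl | rfl⟩ := k.eq_nat_or_neg
  · rw [zpow_natCast, Int.natAbs_natCast]
    exact cost_pow hL X T c h n
  · rw [zpow_neg, zpow_natCast, cost_inv hL, Int.natAbs_neg, Int.natAbs_natCast]
    exact cost_pow hL X T c h n

theorem cost_compl [Fintype F] (X : Finset F) (T : Equiv.Perm F) :
    cost Xᶜ T = #(X \ X.image T) := by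
  unfold cost
  congr 1
  ext x
  simp only [mem_sdiff, mem_image, mem_compl, not_not]
  constructor
  · rintro ⟨⟨y, hy, rfl⟩, h2⟩
    refine ⟨h2, ?_⟩
    rintro ⟨z, hz, h3⟩
    rw [T.injective h3] at hz
    exact hy hz
  · rintro ⟨h1, h2⟩
    refine ⟨⟨T.symm x, fun h => h2 ⟨T.symm x, h, T.apply_symm_apply x⟩, T.apply_symm_apply x⟩, h1⟩

/-- change of the set -/
theorem cost_chg (X Y : Finset F) (T : Equiv.Perm F) (C : ℕ) (h1 : #(X \ Y) ≤ C)
    (h2 : #(Y \ X) ≤ C) : cost X T ≤ 2 * C + cost Y T := by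
  unfold cost
  have h3 : X.image T \ X ⊆ (X \ Y).image T ∪ ((Y \ X) ∪ (Y.image T \ Y)) := by
    intro x hx
    rw [mem_sdiff, mem_image] at hx
    obtain ⟨⟨y, hy, rfl⟩, h4⟩ := hx
    rw [mem_union, mem_union]
    by_cases h5 : y ∈ Y
    · right
      by_cases h6 : T y ∈ Y
      · left
        exact mem_sdiff.mpr ⟨h6, h4⟩
      · right
        exact mem_sdiff.mpr ⟨mem_image_of_mem _ h5, h6⟩
    · left
      exact mem_image_of_mem _ (mem_sdiff.mpr ⟨hy, h5⟩)
  have h4 := card_le_card h3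
  have h5 := card_union_le ((X \ Y).image T) ((Y \ X) ∪ (Y.image T \ Y))
  have h6 := card_union_le (Y \ X) (Y.image T \ Y)
  have h7 : #((X \ Y).image T) ≤ #(X \ Y) := card_image_le
  omega

/-- conjugation -/
theorem cost_conj (X : Finset F) (S T : Equiv.Perm F) :
    cost X (S * T * S⁻¹) = cost (X.image (S⁻¹ : Equiv.Perm F)) T := by
  unfold cost
  have h : X.image (S * T * S⁻¹ : Equiv.Perm F) \ X =
      ((X.image (S⁻¹ : Equiv.Perm F)).image T \ X.image (S⁻¹ : Equiv.Perm F)).image S := by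
    ext x
    simp only [mem_sdiff, mem_image]
    constructor
    · rintro ⟨⟨y, hy, rfl⟩, h2⟩
      refine ⟨T (S⁻¹ y), ⟨⟨S⁻¹ y, ⟨y, hy, rfl⟩, rfl⟩, ?_⟩, rfl⟩
      rintro ⟨z, hz, h3⟩
      apply h2
      have h4 : z = S (T (S⁻¹ y)) := by
        rw [← h3]
        exact (Equiv.apply_symm_apply S z).symm
      rw [h4] at hz
      exact hz
    · rintro ⟨w, ⟨⟨u, ⟨y, hy, rfl⟩, rfl⟩, h2⟩, rfl⟩
      refine ⟨⟨y, hy, rfl⟩, fun h3 => h2 ⟨_, h3, ?_⟩⟩
      exact Equiv.symm_apply_apply S _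
  rw [h, card_image_of_injective _ S.injective]

end cost

/-- the set of `n` consecutive powers of `a` from `a ^ s` on -/
def powSeg {F : Type} [Field F] [DecidableEq F] (a : F) (s : ℤ) (n : ℕ) : Finset F :=
  (range n).image fun i : ℕ => a ^ ((i : ℤ) + s)

theorem card_pw {F : Type} [Field F] [Fintype F] [DecidableEq F] (a : F) (s : ℤ) (n : ℕ)
    (h : ∀ i j : ℤ, a ^ i = a ^ j ↔ ((Fintype.card F : ℤ) - 1) ∣ i - j)
    (hn : n ≤ Fintype.card F - 2) (hq : 3 ≤ Fintype.card F) : #(powSeg a s n) = n := by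
  unfold powSeg
  rw [card_image_of_injOn, card_range]
  intro i hi j hj hij
  rw [coe_range, Set.mem_Iio] at hi hj
  have h1 := (h _ _).mp hij
  have h2 : ((i : ℤ) + s) - ((j : ℤ) + s) = i - j := by ring
  rw [h2] at h1
  have h3 : (i : ℤ) - j = 0 := by
    apply Int.eq_zero_of_abs_lt_dvd h1
    rw [abs_lt]
    constructor <;> omega
  omega

theorem cost_pw {F : Type} [Field F] [Fintype F] [DecidableEq F] (a : Fˣ) (s : ℤ) (n : ℕ) :
    cost (powSeg (a : F) s n)ᶜ (MulAction.toPermHom Fˣ F a) ≤ 1 := by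
  rw [cost_compl]
  have h : powSeg (a : F) s n \ (powSeg (a : F) s n).image (MulAction.toPermHom Fˣ F a) ⊆ {(a : F) ^ s} := by
    intro x hx
    rw [mem_sdiff] at hx
    obtain ⟨h1, h2⟩ := hx
    unfold powSeg at h1
    rw [mem_image] at h1
    obtain ⟨i, hi, rfl⟩ := h1
    rw [mem_singleton]
    cases i with
    | zero => simp
    | succ i =>
      exfalso
      apply h2
      rw [mem_image]
      refine ⟨(a : F) ^ ((i : ℤ) + s), ?_, ?_⟩
      · unfold powSeg
        rw [mem_image]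
        exact ⟨i, by rw [mem_range] at hi ⊢; omega, rfl⟩
      · change (a : F) * (a : F) ^ ((i : ℤ) + s) = _
        rw [← zpow_one_add₀ a.ne_zero]
        congr 1
        push_cast
        ring
  exact (card_le_card h).trans (by rw [card_singleton])

theorem t_DOWNG (hE : EXP) (hL : LEN) (hI : IND) : DOWNG := by
  classical
  intro C
  obtain ⟨C', δ₀, hδ₀, hexp⟩ := hE (4 * C + 6)
  refine ⟨C', max 3 ⌈4 / δ₀⌉₊, δ₀ / 2, by positivity, ?_⟩
  intro F _ _ α β hN hα hβ n f s t hn hδn hbad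
  have hq3 : 3 ≤ Fintype.card F := (le_max_left _ _).trans hN
  have hq4 : 4 / δ₀ ≤ Fintype.card F := by
    have h1 : (⌈4 / δ₀⌉₊ : ℝ) ≤ Fintype.card F := by exact_mod_cast (le_max_right _ _).trans hN
    exact (Nat.le_ceil _).trans h1
  obtain ⟨hα0, hα1, -, hα2⟩ := hI F α hα hq3
  obtain ⟨hβ0, hβ1, -, hβ2⟩ := hI F β hβ hq3
  have hne1 : ∀ a : F, (∀ i : ℤ, a ^ i = 1 ↔ ((Fintype.card F : ℤ) - 1) ∣ i) → a ≠ 1 := by
    intro a ha h
    have h1 := (ha 1).mp (by rw [zpow_one, h])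
    have h2 := Int.le_of_dvd one_pos h1
    omega
  have hαn := hne1 α hα1
  have hβn := hne1 β hβ1
  let a : Fˣ := Units.mk0 α hα0
  let b : Fˣ := Units.mk0 β hβ0
  let X' : Finset F := powSeg α s n
  let Y' : Finset F := powSeg β t n
  have hX' : #X' = n := card_pw α s n hα2 hn hq3
  have hY' : #Y' = n := card_pw β t n hβ2 hn hq3
  let σ : Equiv.Perm F := Equiv.subLeft 1
  have hσ : ∀ x, σ x = 1 - x := fun x => rfl
  have hσi : σ⁻¹ = σ := by
    ext x
    have h1 : σ⁻¹ x = 1 - x := by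
      have h2 : σ (1 - x) = x := by rw [hσ]; ring
      conv_lhs => rw [← h2]
      exact Equiv.symm_apply_apply σ _
    rw [h1, hσ]
  -- the image of `X'`
  have hbad1 : #(X'.image σ \ Y') ≤ C := by
    refine le_trans ?_ hbad
    have h1 : ∀ x ∈ X'.image σ \ Y', ∃ P ∈ (dots f s t).filter (· ∉ Gt α β), 1 - α ^ P.1 = x := by
      intro x hx
      rw [mem_sdiff, mem_image] at hx
      obtain ⟨⟨y, hy, rfl⟩, h2⟩ := hx
      have hy' : y ∈ (range n).image fun i : ℕ => α ^ ((i : ℤ) + s) := hy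
      rw [mem_image] at hy'
      obtain ⟨i, hi, rfl⟩ := hy'
      rw [mem_range] at hi
      refine ⟨((i : ℤ) + s, ((f ⟨i, hi⟩ : Fin n) : ℤ) + t), ?_, rfl⟩
      rw [mem_filter]
      refine ⟨mem_image.mpr ⟨⟨i, hi⟩, mem_univ _, rfl⟩, ?_⟩
      intro h3
      apply h2
      have h4 : α ^ ((i : ℤ) + s) + β ^ (((f ⟨i, hi⟩ : Fin n) : ℤ) + t) = 1 := h3
      have h5 : σ (α ^ ((i : ℤ) + s)) = β ^ (((f ⟨i, hi⟩ : Fin n) : ℤ) + t) := by
        rw [hσ, ← h4]
        ring
      rw [h5]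
      exact mem_image.mpr ⟨(f ⟨i, hi⟩ : ℕ), mem_range.mpr (f ⟨i, hi⟩).2, rfl⟩
    calc #(X'.image σ \ Y') ≤ #(((dots f s t).filter (· ∉ Gt α β)).image fun P => 1 - α ^ P.1) := by
          apply card_le_card
          intro x hx
          obtain ⟨P, hP, h2⟩ := h1 x hx
          exact mem_image.mpr ⟨P, hP, h2⟩
      _ ≤ _ := card_image_le
  have hcX : #(X'.image σ) = n := by rw [card_image_of_injective _ σ.injective, hX']
  have hbad2 : #(Y' \ X'.image σ) ≤ C := by
    have h1 := card_sdiff_add_card_inter Y' (X'.image σ)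
    have h2 := card_sdiff_add_card_inter (X'.image σ) Y'
    rw [inter_comm] at h2
    omega
  let X : Finset F := X'ᶜ
  let Y : Finset F := Y'ᶜ
  have hσX : X.image σ = (X'.image σ)ᶜ := by
    ext x
    simp only [X, mem_image, mem_compl]
    constructor
    · rintro ⟨y, hy, rfl⟩ ⟨z, hz, h3⟩
      rw [σ.injective h3] at hz
      exact hy hz
    · intro h
      exact ⟨σ⁻¹ x, fun h2 => h ⟨_, h2, Equiv.apply_symm_apply σ x⟩, Equiv.apply_symm_apply σ x⟩
  have hd1 : #(X.image σ \ Y) ≤ C := by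
    have h1 : X.image σ \ Y = Y' \ X'.image σ := by
      rw [hσX]
      ext x
      simp only [Y, mem_sdiff, mem_compl, not_not]
      exact and_comm
    rw [h1]
    exact hbad2
  have hd2 : #(Y \ X.image σ) ≤ C := by
    have h1 : Y \ X.image σ = X'.image σ \ Y' := by
      rw [hσX]
      ext x
      simp only [Y, mem_sdiff, mem_compl, not_not]
      exact and_comm
    rw [h1]
    exact hbad1
  let T₁ : Equiv.Perm F := MulAction.toPermHom Fˣ F a
  let Tb : Equiv.Perm F := MulAction.toPermHom Fˣ F b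
  let T₂ : Equiv.Perm F := σ * Tb * σ⁻¹
  have hc1 : cost X T₁ ≤ 1 := cost_pw a s n
  have hcb : cost Y Tb ≤ 1 := cost_pw b t n
  have hc2 : cost X T₂ ≤ 2 * C + 1 := by
    have h1 : cost X T₂ = cost (X.image (σ⁻¹ : Equiv.Perm F)) Tb := cost_conj X σ Tb
    rw [h1, hσi]
    have h2 := cost_chg (X.image σ) Y Tb C hd1 hd2
    omega
  let τ : F := (α - 1) * (1 - β)
  have hτ : τ ≠ 0 := mul_ne_zero (sub_ne_zero.mpr hαn) (sub_ne_zero.mpr (Ne.symm hβn))
  have hT1 : ∀ x, T₁ x = α * x := fun x => rfl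
  have hT2 : ∀ x, T₂ x = 1 - β * (1 - x) := by
    intro x
    change σ (Tb (σ⁻¹ x)) = _
    rw [hσi]
    rfl
  have htr : (Equiv.addRight τ : Equiv.Perm F) = T₁ * T₂ * (T₁⁻¹ * T₂⁻¹) := by
    have h1 : (Equiv.addRight τ : Equiv.Perm F) * (T₂ * T₁) = T₁ * T₂ := by
      ext x
      change T₂ (T₁ x) + τ = T₁ (T₂ x)
      rw [hT2, hT1, hT1, hT2]
      simp only [τ]
      ring
    rw [← h1]
    group
  have hctr : cost X (Equiv.addRight τ) ≤ 4 * C + 4 := by
    rw [htr]
    have h1 := cost_mul hL X (T₁ * T₂) (T₁⁻¹ * T₂⁻¹)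
    have h2 := cost_mul hL X T₁ T₂
    have h3 := cost_mul hL X T₁⁻¹ T₂⁻¹
    rw [cost_inv hL, cost_inv hL] at h3
    omega
  have hck : ∀ k : ℤ, cost X (Equiv.addRight (α ^ k * τ)) ≤ (4 * C + 6) * (1 + k.natAbs) := by
    intro k
    have hTk : ∀ x, (T₁ ^ k) x = α ^ k * x := by
      intro x
      have h1 : T₁ ^ k = MulAction.toPermHom Fˣ F (a ^ k) := (map_zpow _ _ _).symm
      rw [h1]
      change ((a ^ k : Fˣ) : F) * x = _
      rw [Units.val_zpow_eq_zpow_val]
      rfl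
    have h1 : (Equiv.addRight (α ^ k * τ) : Equiv.Perm F) =
        T₁ ^ k * Equiv.addRight τ * (T₁ ^ k)⁻¹ := by
      rw [eq_mul_inv_iff_mul_eq]
      ext x
      change (T₁ ^ k) x + α ^ k * τ = (T₁ ^ k) (x + τ)
      rw [hTk, hTk]
      ring
    rw [h1]
    have h2 := cost_mul hL X (T₁ ^ k * Equiv.addRight τ) (T₁ ^ k)⁻¹
    have h3 := cost_mul hL X (T₁ ^ k) (Equiv.addRight τ)
    have h4 := cost_zpow hL X T₁ 1 hc1 k
    rw [cost_inv hL] at h2
    rw [mul_one] at h4
    have h5 : 2 * k.natAbs + (4 * C + 4) ≤ (4 * C + 6) * (1 + k.natAbs) := by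
      rw [mul_add, mul_one, add_mul]
      have : 0 ≤ 4 * C * k.natAbs := Nat.zero_le _
      omega
    omega
  let Z : Finset F := X.image (τ⁻¹ * ·)
  have hinjτ : Function.Injective (τ⁻¹ * · : F → F) := mul_right_injective₀ (inv_ne_zero hτ)
  have hZ : #Z = #X := card_image_of_injective _ hinjτ
  have hInv : Inv Z α (4 * C + 6) := by
    intro k
    refine le_trans ?_ (hck k)
    unfold cost
    have h1 : Z.image (· + α ^ k) \ Z = (X.image (Equiv.addRight (α ^ k * τ)) \ X).image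
        (τ⁻¹ * ·) := by
      rw [image_sdiff _ _ hinjτ, image_image, image_image]
      congr 1
      apply image_congr
      intro x _
      change τ⁻¹ * x + α ^ k = τ⁻¹ * (x + α ^ k * τ)
      field_simp
    rw [h1]
    exact card_image_le
  have hXc : #X = Fintype.card F - n := by
    change #X'ᶜ = _
    rw [card_compl, hX']
  have hsize : (#Z : ℝ) ≤ δ₀ * Fintype.card F := by
    rw [hZ, hXc, Nat.cast_sub (by omega)]
    rw [Nat.cast_sub (by omega)] at hδn
    push_cast at hδn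
    have h1 : 4 ≤ δ₀ * Fintype.card F := by
      rw [div_le_iff₀ hδ₀] at hq4
      linarith
    nlinarith
  have hfin := hexp F α Z hα hInv hsize
  rw [hZ, hXc] at hfin
  omega

end Pool.Agent.Helper77.CO
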