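import Pool.Agent.Helper74.CO.Goals

/-!
# Project CO (MP_c5396e_co), packet GB
-/

set_option autoImplicit false

namespace Pool.Agent.Helper77.CO

open Finset Pool.Agent.Helper74.CO

section

variable {F : Type} [Field F] [Fintype F] [DecidableEq F]

theorem norm_chi_le (χ : MulChar F ℂ) (x : F) : ‖χ x‖ ≤ 1 := by
  by_cases h : x = 0
  · rw [h, χ.map_nonunit not_isUnit_zero, norm_zero]
    exact zero_le_one
  · have h1 : (χ x) ^ (Fintype.card F - 1) = 1 := by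
      rw [← map_pow, FiniteField.pow_card_sub_one_eq_one x h, map_one]
    have h2 : Fintype.card F - 1 ≠ 0 := by
      have := Fintype.one_lt_card (α := F)
      omega
    exact (Complex.norm_eq_one_of_pow_eq_one h1 h2).le

theorem chi_zpow_add (χ : MulChar F ℂ) (j k : ℤ) (x : F) : (χ ^ (j + k)) x = (χ ^ j) x * (χ ^ k) x := by
  rw [zpow_add, MulChar.mul_apply]

theorem chi_inv (χ : MulChar F ℂ) (k : ℤ) (x : F) : (χ ^ k) x⁻¹ = (χ ^ (-k)) x := by
  rw [zpow_neg, MulChar.inv_apply']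

theorem chi_zero (χ : MulChar F ℂ) (x : F) (hx : x ≠ 0) : (χ ^ (0 : ℤ)) x = 1 := by
  rw [zpow_zero]
  exact MulChar.one_apply (Ne.isUnit hx)

theorem ex_add (a b : ℝ) : ex (a + b) = ex a * ex b := by
  unfold ex
  rw [← Complex.exp_add]
  congr 1
  push_cast
  ring

theorem card_compl_Xg (e : F) (he : e ≠ -1) : #(Xg e 1)ᶜ ≤ 4 := by
  have h : (Xg e 1)ᶜ ⊆ {0, 1, e, e / (e + 1)} := by
    intro x hx
    unfold Xg at hx
    rw [mem_compl, mem_filter] at hx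
    simp only [mem_univ, true_and, not_and_or, not_not, sub_self, ne_eq] at hx
    simp only [mem_insert, mem_singleton]
    rcases hx with h | h | h | h | h
    · exact Or.inl h
    · exact Or.inr (Or.inl h)
    · exact Or.inl h
    · exact Or.inr (Or.inr (Or.inl h))
    · right; right; right
      have h1 : e + 1 ≠ 0 := fun h2 => he (eq_neg_of_add_eq_zero_left h2)
      rw [eq_div_iff h1, mul_comm]
      exact h
  exact (card_le_card h).trans card_le_four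

/-- bound of an incomplete sum -/
theorem incompl {κ : ℝ} (X : Finset F) (hX : #Xᶜ ≤ 4) (g : F → ℂ) (hg : ∀ x, ‖g x‖ ≤ 1)
    (hκ : 0 < κ) (B : ℝ) (hB : ‖∑ x, g x‖ ≤ B) (hB2 : B + 5 ≤ κ * ((Fintype.card F : ℝ) - 5)) :
    ‖∑ x ∈ X, g x‖ ≤ κ * #X := by
  have h1 : ∑ x, g x = ∑ x ∈ X, g x + ∑ x ∈ Xᶜ, g x := (sum_add_sum_compl X g).symm
  have h2 : ‖∑ x ∈ Xᶜ, g x‖ ≤ 4 := by
    refine (norm_sum_le _ _).trans ?_
    calc ∑ x ∈ Xᶜ, ‖g x‖ ≤ ∑ _x ∈ Xᶜ, (1 : ℝ) := sum_le_sum fun x _ => hg x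
      _ = #Xᶜ := by simp
      _ ≤ 4 := by exact_mod_cast hX
  have h3 : ∑ x ∈ X, g x = ∑ x, g x - ∑ x ∈ Xᶜ, g x := by
    rw [h1]
    ring
  have h4 : (Fintype.card F : ℝ) - 5 ≤ #X := by
    have h5 : #X + #Xᶜ = Fintype.card F := card_add_card_compl X
    have h6 : (#X : ℝ) + #Xᶜ = Fintype.card F := by exact_mod_cast h5
    have h7 : (#Xᶜ : ℝ) ≤ 4 := by exact_mod_cast hX
    linarith
  rw [h3]
  have h8 := norm_sub_le (∑ x, g x) (∑ x ∈ Xᶜ, g x)
  have h9 : κ * ((Fintype.card F : ℝ) - 5) ≤ κ * #X := mul_le_mul_of_nonneg_left h4 hκ.le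
  linarith

end

theorem t_GB (hLIM : LIM) (hTRI2 : ∀ (F : Type) [Field F] [Fintype F] [DecidableEq F], TRI2 F)
    (hJAC : ∀ (F : Type) [Field F] [Fintype F] [DecidableEq F], JAC F) (hCHM : CHM) : GB := by
  intro K κ hκ
  obtain ⟨q₀, hq₀⟩ := hLIM κ hκ
  refine ⟨max q₀ (K + 10), ?_⟩
  intro F _ _ _ α β e hq hα hβ he0 he1 j k l hj hk hl hne
  have hqK : K + 10 ≤ Fintype.card F := (le_max_right _ _).trans hq
  have hqq : q₀ ≤ Fintype.card F := (le_max_left _ _).trans hq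
  have hlim := hq₀ _ hqq
  have hq1 : (1 : ℝ) ≤ √(Fintype.card F : ℝ) := by
    rw [Real.one_le_sqrt]
    exact_mod_cast (by omega : 1 ≤ Fintype.card F)
  have hq0 : (0 : ℝ) ≤ Fintype.card F := Nat.cast_nonneg _
  have hqs : (Fintype.card F : ℝ) ≤ Fintype.card F * √(Fintype.card F : ℝ) :=
    le_mul_of_one_le_right hq0 hq1
  obtain ⟨χ, hχ, hχ1⟩ := hCHM F α hα (by omega)
  obtain ⟨ω, hω, hω1⟩ := hCHM F β hβ (by omega)
  have hX4 := card_compl_Xg e he1
  have hee : e + 1 ≠ 0 := fun h2 => he1 (eq_neg_of_add_eq_zero_left h2)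
  set t : F := e / (e + 1) with ht
  have ht0 : t ≠ 0 := div_ne_zero he0 hee
  have ht1 : t ≠ 1 := by
    rw [ht, Ne, div_eq_one_iff_eq hee]
    intro h
    have h1 : e + 0 = e + 1 := by rw [add_zero]; exact h
    exact zero_ne_one (add_left_cancel h1)
  have hmem : ∀ x ∈ Xg e 1, x ≠ 0 ∧ x ≠ 1 ∧ (e + 1) * x ≠ e := by
    intro x hx
    unfold Xg at hx
    rw [mem_filter] at hx
    exact ⟨hx.2.1, hx.2.2.1, hx.2.2.2.2.2⟩
  -- the summand
  have hterm : ∀ x ∈ Xg e 1, ex (j * ag α x + k * ag α (Mg e 1 x) + l * cg β x) =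
      (χ ^ j) x * (χ ^ k) (Mg e 1 x) * (ω ^ l) (1 - x) := by
    intro x hx
    obtain ⟨h1, h2, h3⟩ := hmem x hx
    have h4 : Mg e 1 x ≠ 0 := by
      unfold Mg
      rw [sub_self, sub_zero]
      exact div_ne_zero (mul_ne_zero he0 h1) (sub_ne_zero.mpr h3)
    rw [ex_add, ex_add, hχ x h1, hχ _ h4, hω (1 - x) (sub_ne_zero.mpr (Ne.symm h2))]
    rfl
  rw [sum_congr rfl hterm]
  have hM : ∀ x ∈ Xg e 1, (χ ^ k) (Mg e 1 x) = (χ ^ k) t * ((χ ^ k) x * (χ ^ (-k)) (x - t)) := by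
    intro x hx
    obtain ⟨h1, h2, h3⟩ := hmem x hx
    rw [← chi_inv, ← map_mul, ← map_mul]
    congr 1
    unfold Mg
    rw [sub_self, sub_zero]
    have h5 : (e + 1) * x - e ≠ 0 := sub_ne_zero.mpr h3
    have h6 : x - t ≠ 0 := by
      intro h7
      apply h3
      rw [sub_eq_zero.mp h7, ht]
      field_simp
    have h8 : (e + 1) * x - e = (e + 1) * (x - t) := by
      rw [ht]
      field_simp
    rw [h8, ht]
    rw [ht] at h6
    field_simp
  have hω' : ∀ x : F, (ω ^ l) (1 - x) = (ω ^ l) (-1) * (ω ^ l) (x - 1) := by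
    intro x
    rw [← map_mul]
    congr 1
    ring
  by_cases hk0 : k = 0
  · -- `k = 0`
    subst hk0
    by_cases hl0 : l = 0
    · subst hl0
      have hj0 : j ≠ 0 := fun h => hne ⟨h, rfl, rfl⟩
      have h1 : ∑ x ∈ Xg e 1, (χ ^ j) x * (χ ^ (0 : ℤ)) (Mg e 1 x) * (ω ^ (0 : ℤ)) (1 - x) =
          ∑ x ∈ Xg e 1, (χ ^ j) x := by
        refine sum_congr rfl fun x hx => ?_
        obtain ⟨h1, h2, h3⟩ := hmem x hx
        have h4 : Mg e 1 x ≠ 0 := by
          unfold Mg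
          rw [sub_self, sub_zero]
          exact div_ne_zero (mul_ne_zero he0 h1) (sub_ne_zero.mpr h3)
        rw [chi_zero χ _ h4, chi_zero ω _ (sub_ne_zero.mpr (Ne.symm h2)), mul_one, mul_one]
      rw [h1]
      have h2 : ∑ x, (χ ^ j) x = 0 :=
        MulChar.sum_eq_zero_of_ne_one (hχ1 j hj0 (by omega))
      refine incompl _ hX4 _ (norm_chi_le _) hκ 0 (by rw [h2, norm_zero]) ?_
      exact hlim 0 le_rfl (by rw [zero_pow two_ne_zero]; positivity)
    · have h1 : ∑ x ∈ Xg e 1, (χ ^ j) x * (χ ^ (0 : ℤ)) (Mg e 1 x) * (ω ^ l) (1 - x) =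
          ∑ x ∈ Xg e 1, (ω ^ l) (-1) * ((χ ^ j) x * (ω ^ l) (x - 1)) := by
        refine sum_congr rfl fun x hx => ?_
        obtain ⟨h1, h2, h3⟩ := hmem x hx
        have h4 : Mg e 1 x ≠ 0 := by
          unfold Mg
          rw [sub_self, sub_zero]
          exact div_ne_zero (mul_ne_zero he0 h1) (sub_ne_zero.mpr h3)
        rw [chi_zero χ _ h4, hω', mul_one]
        ring
      rw [h1]
      have hJ := hJAC F (χ ^ j) (ω ^ l) 1 (hω1 l hl0 (by omega)) one_ne_zero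
      have hg : ∀ x, ‖(ω ^ l) (-1) * ((χ ^ j) x * (ω ^ l) (x - 1))‖ ≤ 1 := by
        intro x
        rw [norm_mul, norm_mul]
        exact mul_le_one₀ (norm_chi_le _ _) (by positivity)
          (mul_le_one₀ (norm_chi_le _ _) (norm_nonneg _) (norm_chi_le _ _))
      refine incompl _ hX4 _ hg hκ ‖∑ x, (χ ^ j) x * (ω ^ l) (x - 1)‖ ?_ ?_
      · rw [← mul_sum, norm_mul]
        exact mul_le_of_le_one_left (norm_nonneg _) (norm_chi_le _ _)
      · exact hlim _ (norm_nonneg _) (by nlinarith)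
  · -- `k ≠ 0`
    have hk1 : χ ^ (-k) ≠ 1 := hχ1 (-k) (neg_ne_zero.mpr hk0) (by rw [abs_neg]; omega)
    by_cases hl0 : l = 0
    · subst hl0
      have h1 : ∑ x ∈ Xg e 1, (χ ^ j) x * (χ ^ k) (Mg e 1 x) * (ω ^ (0 : ℤ)) (1 - x) =
          ∑ x ∈ Xg e 1, (χ ^ k) t * ((χ ^ (j + k)) x * (χ ^ (-k)) (x - t)) := by
        refine sum_congr rfl fun x hx => ?_
        obtain ⟨h1, h2, h3⟩ := hmem x hx
        rw [hM x hx, chi_zero ω _ (sub_ne_zero.mpr (Ne.symm h2)), mul_one, chi_zpow_add]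
        ring
      rw [h1]
      have hJ := hJAC F (χ ^ (j + k)) (χ ^ (-k)) t hk1 ht0
      have hg : ∀ x, ‖(χ ^ k) t * ((χ ^ (j + k)) x * (χ ^ (-k)) (x - t))‖ ≤ 1 := by
        intro x
        rw [norm_mul, norm_mul]
        exact mul_le_one₀ (norm_chi_le _ _) (by positivity)
          (mul_le_one₀ (norm_chi_le _ _) (norm_nonneg _) (norm_chi_le _ _))
      refine incompl _ hX4 _ hg hκ ‖∑ x, (χ ^ (j + k)) x * (χ ^ (-k)) (x - t)‖ ?_ ?_
      · rw [← mul_sum, norm_mul]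
        exact mul_le_of_le_one_left (norm_nonneg _) (norm_chi_le _ _)
      · exact hlim _ (norm_nonneg _) (by nlinarith)
    · have h1 : ∑ x ∈ Xg e 1, (χ ^ j) x * (χ ^ k) (Mg e 1 x) * (ω ^ l) (1 - x) =
          ∑ x ∈ Xg e 1, ((χ ^ k) t * (ω ^ l) (-1)) *
            ((χ ^ (j + k)) x * ((χ ^ (-k)) (x - t) * (ω ^ l) (x - 1))) := by
        refine sum_congr rfl fun x hx => ?_
        rw [hM x hx, hω', chi_zpow_add]
        ring
      rw [h1]
      have hT := hTRI2 F (χ ^ (j + k)) (χ ^ (-k)) (ω ^ l) t 1 hk1 (hω1 l hl0 (by omega)) ht0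
        one_ne_zero ht1
      have hc : ‖(χ ^ k) t * (ω ^ l) (-1)‖ ≤ 1 := by
        rw [norm_mul]
        exact mul_le_one₀ (norm_chi_le _ _) (norm_nonneg _) (norm_chi_le _ _)
      have hg : ∀ x, ‖((χ ^ k) t * (ω ^ l) (-1)) *
            ((χ ^ (j + k)) x * ((χ ^ (-k)) (x - t) * (ω ^ l) (x - 1)))‖ ≤ 1 := by
        intro x
        rw [norm_mul]
        refine mul_le_one₀ hc (norm_nonneg _) ?_
        rw [norm_mul, norm_mul]
        exact mul_le_one₀ (norm_chi_le _ _) (by positivity)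
          (mul_le_one₀ (norm_chi_le _ _) (norm_nonneg _) (norm_chi_le _ _))
      refine incompl _ hX4 _ hg hκ ‖∑ x, (χ ^ (j + k)) x *
        ((χ ^ (-k)) (x - t) * (ω ^ l) (x - 1))‖ ?_ ?_
      · rw [← mul_sum, norm_mul]
        exact mul_le_of_le_one_left (norm_nonneg _) hc
      · refine hlim _ (norm_nonneg _) (hT.trans ?_)
        have h5 : 0 ≤ (Fintype.card F : ℝ) * √(Fintype.card F : ℝ) := by positivity
        nlinarith

end Pool.Agent.Helper77.CO
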